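import Pool.Agent.R887.AbsD

/-!
Contracting towers of finite multi-valued maps: all line quotients of all tensor powers of the
tangent sheaf are pseudo-effective, on all finite covers, and the varieties are special.
-/

set_option autoImplicit false

open FF Pool.Agent.W602.GT Pool.Agent.Y172 Pool.Agent.R887

/-- Let `X 0, X 1, X 2, ...` be normal complex projective varieties of dimension `n ≥ 1`, with generic
points `y k`, and `Bd k` sets of places of their function fields (for instance empty, or the places
without centre on an open subset `U k` of `X k`; except for the notions of Kodaira dimension and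
special varieties, only the prime divisors of `X k` in `Bd k` matter).

(0) If there are finitely many prime divisors in `Bd k` (`Bd k` may then be replaced by the set of
these) then there is a number `C ≥ 0` which bounds the rank one subsheaves of the tensor powers of
`Ω¹(log Bd k)` on `X k` absolutely: for all finite covers `g : Z → X k`, all `r` and all rank one
subsheaves `L` of `g^* Ω¹(log Bd k)^(⊗ r)`, the divisor `C r g^* H - L` is pseudo-effective, where
`H` is a hyperplane section of `X k`.

Let `X (k + 1) ← X'' k → X k` be multi-valued maps, given by homomorphisms `ψ k`, `φ k` of the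
function fields, such that the prime divisors over `X'' k` which lie over prime divisors `P` of `X k`
lie over prime divisors `P'` of `X (k + 1)`, and if `P'` is not in `Bd (k + 1)`, then `P` is not in
`Bd k` and there is no ramification over `P'`: for instance, pairs of finite morphisms which are given
by `U (k + 1) ← U'' k → U k`, the first ones étale in codimension one. Let the intersection number
of `n - 1` pull backs of hyperplane sections of `X k` and one pull back of a hyperplane section of
`X (k + 1)` be at most `c k` times the degree of `X'' k → X k`.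

(1) If `C` bounds the rank one subsheaves on `X s` absolutely, then so does `c 0 ⋯ c (s - 1) C` on
`X 0`.

(2) Suppose that the numbers `C s` bound the rank one subsheaves on `X s` absolutely, and that
`c 0 ⋯ c (s - 1) C s` tends to `0` for `s → ∞` (if the sequence of the `(X k, Bd k)` is periodic, in
particular if it is constant, this means that the product of the `c k` over one period is less than
one). Then for all `k`, all finite covers `g : Z → X k`, and all rank one subsheaves `L` of
`g^* Ω¹(log Bd k)^(⊗ r)`, the divisor `-L` is pseudo-effective: all line quotients of the pull backs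
of the tensor powers of the (logarithmic) tangent sheaf of `X k` are pseudo-effective. Moreover, all
rank one subsheaves of the tensor powers of `Ω¹(log)` of the smooth models have Kodaira dimension at
most `0`, and `X k` (or `U k`) is special in the sense of Campana. -/
theorem Pool.Agent.Results.MP_1209e6_ag.AbsoluteTowers.result
    {n : ℕ} (hn0 : 0 < n) {K L : ℕ → Type} [∀ k, Field (K k)] [∀ k, Algebra ℂ (K k)]
    [∀ k, Field (L k)] [∀ k, Algebra ℂ (L k)] {N : ℕ → ℕ} {y : ∀ k, Fin (N k + 1) → K k}
    (hy : ∀ k, NormalModel (y k)) (hn : ∀ k, Algebra.trdeg ℂ (K k) = n)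
    {Bd : ∀ k, Set (Place ℂ (K k))} (φ : ∀ k, K k →ₐ[ℂ] L k) (ψ : ∀ k, K (k + 1) →ₐ[ℂ] L k)
    (hψ : ∀ k, FiniteDimensional (ψ k).fieldRange (L k))
    (hfe : ∀ k, FiniteEtale (φ k) (ψ k) (y k) (Bd k) (y (k + 1)) (Bd (k + 1)))
    {c : ℕ → ℝ} (hc0 : ∀ k, 0 < c k)
    (hc : ∀ k, MultiDegreeLe (φ k) (ψ k) (y k) (y (k + 1)) (n - 1) 1 (c k)) :
    (∀ k, (Bd k).Finite → ∃ C : ℝ, 0 ≤ C ∧ AbsTensorLe (y k) (Bd k) C) ∧
    (∀ (s : ℕ) (C : ℝ), AbsTensorLe (y s) (Bd s) C →
      AbsTensorLe (y 0) (Bd 0) ((∏ l ∈ Finset.range s, c l) * C)) ∧
    (∀ C : ℕ → ℝ, (∀ s, AbsTensorLe (y s) (Bd s) (C s)) →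
      Filter.Tendsto (fun s => (∏ l ∈ Finset.range s, c l) * C s) Filter.atTop (nhds 0) →
      ∀ k, AbsTensorLe (y k) (Bd k) 0 ∧
        (∀ (r : ℕ) (σ : Tensor (K k) r), σ ≠ 0 → ¬ TensorKodairaGe n (Bd k) σ 1) ∧
        Special n (Bd k)) := by
  refine ⟨fun k hk => exists_abs (hy k) (hn k) hk, fun s C hC => ?_, fun C hC hlim k => ?_⟩
  · have h1 := tower_abs hy hn hn0 φ ψ hψ hfe hc s 0 (C := C) (by rw [Nat.zero_add]; exact hC)
    simpa using h1
  · have h1 := tower_abs_zero hy hn hn0 φ ψ hψ hfe hc0 hc hC hlim k
    exact ⟨h1, abs_special (hy k) (hn k) hn0 h1⟩
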