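import Pool.Agent.R871.SG.HypA

/-!
MP_1209e6_ag, Q1: Zariski dense entire curves of slow growth, and rational curves which are not contained
in hypersurface sections of bounded degree.
-/

set_option autoImplicit false

namespace Pool.Agent.Results.MP_1209e6_ag.DenseSlowCurves

open Pool.Agent.R871.SG MvPolynomial

/-- Let `X ⊂ ℙˢ⁻¹` be the projective variety defined by the homogeneous polynomials `F` and let `B` be an
irreducible affine variety in `ℂᵖ`, given by the prime ideal `I` (for instance the affine line,
`p = 1`, `I = 0`), all over the complex numbers. There is a function `φ` with `φ r / log r → ∞` for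
`r → ∞` such that for all numbers `e` the following are equivalent.

(1) For every algebraic map `B → X` (given by homogeneous coordinates which are polynomials) there is a
hypersurface section of degree `e` of `X` which contains the image: a form of degree `e` vanishes on the
image, but not on `X`.

(2) The same for every holomorphic map `B → X` given by homogeneous coordinates which are the
restriction of an entire map `f` on `ℂᵖ` such that `log ‖f z‖ ≤ φ r` for all `z` with `‖z‖ ≤ r`, for
arbitrarily large `r`.

In particular, if `X` has a Zariski dense entire curve of this growth, then for every `e` there is a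
rational curve in `X` which is not contained in any hypersurface section of degree `e`. -/
theorem result {p s : ℕ} {ι : Type} (I : Ideal (MvPolynomial (Fin p) ℂ)) [I.IsPrime]
    (F : ι → MvPolynomial (Fin s) ℂ) : ∃ φ : ℝ → ℝ, Grows φ ∧ ∀ e : ℕ,
      (∀ P : Fin s → MvPolynomial (Fin p) ℂ, HolOn I F (mv P) → InSection I F e (mv P)) ↔
      ∀ f, HolOn I F f → SlowM φ f → InSection I F e f :=
  inSection_iff I F

end Pool.Agent.Results.MP_1209e6_ag.DenseSlowCurves
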