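import Pool.Agent.R887.TensD

/-!
The varieties which are dominated by multi-valued rational maps of large degree from a fixed variety
are special in the sense of Campana: the Kodaira dimensions of all rank one subsheaves of the tensor
powers of the cotangent bundle are at most zero.
-/

set_option autoImplicit false

open FF Pool.Agent.W602.GT Pool.Agent.Y172 Pool.Agent.R887

/-- Let `X` and `X'` be normal projective varieties of dimension `n ≥ 1`, with generic points `y` and
`y'`, and `S` a finite set of prime divisors of `X'`. Suppose that for all `ε > 0` there is a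
multi-valued rational map `X' ← X'' → X`: a variety `X''` with a generically finite rational map `p`
to `X'`, unramified over the prime divisors of `X'` which are not in `S`, and a dominant rational
map `f` to `X`, such that the intersection number `(f^* H)^(n-1) (p^* H')` is at most `ε deg f`, `H`
and `H'` being hyperplane sections of `X` and `X'`. (For instance, `X' = X''` and `p = id`.)

(1) For all `r` and all rank one subsheaves `L` of the `r`-th tensor power of the cotangent bundle
of a resolution of singularities of `X`, generated by a rational section `σ ≠ 0`, the Kodaira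
dimension of `L` is at most `0`.

(2) `X` is special in the sense of Campana.

(3) The same holds for the smooth quasi-projective varieties `U` with function field `K`, and the
subsheaves of the tensor powers of the logarithmic cotangent bundle, if the prime divisors of `X''`
over the prime divisors of `X'` which are not in `S` are mapped into `U` (their images, divisors
over `X`, are not in the set `Bd` of the places without centre on `U`). -/
theorem Pool.Agent.Results.MP_1209e6_ag.SpecialDegreeGrowth.result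
    {K K' : Type} [Field K] [Algebra ℂ K] [Field K'] [Algebra ℂ K'] {N N' n : ℕ}
    {y : Fin (N + 1) → K} {y' : Fin (N' + 1) → K'} (hy : NormalModel y) (hy' : NormalModel y')
    (hn : Algebra.trdeg ℂ K = n) (hn' : Algebra.trdeg ℂ K' = n) (hn0 : 0 < n)
    {S : Set (Place ℂ K')} (hS : S.Finite) :
    ((∀ ε : ℝ, 0 < ε → ∃ (L : Type) (_ : Field L) (_ : Algebra ℂ L)
      (φ : K →ₐ[ℂ] L) (ψ : K' →ₐ[ℂ] L), FiniteDimensional ψ.fieldRange L ∧
        UnramifiedOutside ψ y' S ∧ MultiDegreeLe φ ψ y y' (n - 1) 1 ε) →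
      (∀ (r : ℕ) (σ : Tensor K r), σ ≠ 0 → ∀ k, TensorKodairaGe n ∅ σ k → k = 0) ∧
      Special n (∅ : Set (Place ℂ K))) ∧
    ∀ Bd : Set (Place ℂ K), (∀ ε : ℝ, 0 < ε → ∃ (L : Type) (_ : Field L) (_ : Algebra ℂ L)
      (φ : K →ₐ[ℂ] L) (ψ : K' →ₐ[ℂ] L), FiniteDimensional ψ.fieldRange L ∧
        UnramifiedOutside ψ y' S ∧
        (∀ Q' : Place ℂ K', IsPrimeDivisor y' Q' → Q' ∉ S → ∀ (Q : Place ℂ L) (e' : ℕ),
          LiesOver ψ Q Q' e' → ∀ (P : Place ℂ K) (e : ℕ), LiesOver φ Q P e → P ∉ Bd) ∧
        MultiDegreeLe φ ψ y y' (n - 1) 1 ε) →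
      (∀ (r : ℕ) (σ : Tensor K r), σ ≠ 0 → ∀ k, TensorKodairaGe n Bd σ k → k = 0) ∧
      Special n Bd := by
  have key : ∀ Bd : Set (Place ℂ K), (∀ ε : ℝ, 0 < ε → ∃ (L : Type) (_ : Field L)
      (_ : Algebra ℂ L) (φ : K →ₐ[ℂ] L) (ψ : K' →ₐ[ℂ] L), FiniteDimensional ψ.fieldRange L ∧
        UnramifiedOutside ψ y' S ∧
        (∀ Q' : Place ℂ K', IsPrimeDivisor y' Q' → Q' ∉ S → ∀ (Q : Place ℂ L) (e' : ℕ),
          LiesOver ψ Q Q' e' → ∀ (P : Place ℂ K) (e : ℕ), LiesOver φ Q P e → P ∉ Bd) ∧
        MultiDegreeLe φ ψ y y' (n - 1) 1 ε) →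
      (∀ (r : ℕ) (σ : Tensor K r), σ ≠ 0 → ∀ k, TensorKodairaGe n Bd σ k → k = 0) ∧
      Special n Bd := by
    intro Bd hmap
    have h1 : ∀ (r : ℕ) (σ : Tensor K r), σ ≠ 0 → ∀ k, TensorKodairaGe n Bd σ k → k = 0 := by
      intro r σ hσ k hk
      by_contra hk0
      exact tens_seq hy hy' hn hn' hn0 hS (j := 1) (by omega) hmap hσ (hk.mono (by omega))
    refine ⟨h1, fun p hp σ hσ _ hk => ?_⟩
    have := h1 p σ hσ p hk
    omega
  refine ⟨fun hmap => key ∅ fun ε hε => ?_, key⟩
  obtain ⟨L, i1, i2, φ, ψ, h1, h2, h3⟩ := hmap ε hε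
  exact ⟨L, i1, i2, φ, ψ, h1, h2, fun _ _ _ _ _ _ P _ _ => Set.notMem_empty P, h3⟩
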